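import Mathlib

/-!
Houses of algebraic integers, Siegel's lemma, and binomial coefficients modulo primes.
-/

set_option autoImplicit false

namespace Pool.Agent.H9.PM

open Finset NumberField Filter

section house

variable {L : Type} [Field L] [NumberField L]

/-- the largest absolute value of the conjugates of an algebraic integer -/
noncomputable def hs (x : 𝓞 L) : ℝ := house (algebraMap (𝓞 L) L x)

theorem hs_nonneg (x : 𝓞 L) : 0 ≤ hs x := house_nonneg _

theorem hs_mul_le (x y : 𝓞 L) : hs (x * y) ≤ hs x * hs y := by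
  unfold hs
  rw [map_mul]
  exact house_mul_le _ _

theorem hs_add_le (x y : 𝓞 L) : hs (x + y) ≤ hs x + hs y := by
  unfold hs
  rw [map_add]
  exact house_add_le _ _

theorem hs_sum_le {ι : Type} (s : Finset ι) (f : ι → 𝓞 L) : hs (∑ i ∈ s, f i) ≤ ∑ i ∈ s, hs (f i) := by
  unfold hs
  rw [map_sum]
  exact house_sum_le_sum_house _ _

theorem hs_natCast (n : ℕ) : hs (n : 𝓞 L) = n := by
  unfold hs
  rw [map_natCast]
  have := house_intCast (K := L) (n : ℤ)
  rw [Int.cast_natCast] at this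
  rw [this]
  simp

theorem hs_one : hs (1 : 𝓞 L) = 1 := by
  have := hs_natCast (L := L) 1
  simpa using this

theorem hs_zero : hs (0 : 𝓞 L) = 0 := by
  have := hs_natCast (L := L) 0
  simpa using this

theorem hs_prod_le {ι : Type} (s : Finset ι) (f : ι → 𝓞 L) :
    hs (∏ i ∈ s, f i) ≤ ∏ i ∈ s, hs (f i) := by
  classical
  induction s using Finset.induction_on with
  | empty => simp [hs_one]
  | insert a s ha ih =>
    rw [Finset.prod_insert ha, Finset.prod_insert ha]
    exact (hs_mul_le _ _).trans (mul_le_mul_of_nonneg_left ih (hs_nonneg _))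

theorem hs_natCast_mul (n : ℕ) (x : 𝓞 L) : hs ((n : 𝓞 L) * x) = n * hs x := by
  unfold hs
  rw [map_mul, map_natCast]
  exact house_nat_mul _ _

theorem one_le_hs {x : 𝓞 L} (hx : x ≠ 0) : 1 ≤ hs x := by
  unfold hs
  refine one_le_house_of_isIntegral (RingOfIntegers.isIntegral_coe x) ?_
  intro h
  exact hx (RingOfIntegers.coe_eq_zero_iff.1 h)

theorem le_hs_of_dvd {n : ℕ} {x : 𝓞 L} (hx : x ≠ 0) (h : (n : 𝓞 L) ∣ x) : (n : ℝ) ≤ hs x := by
  obtain ⟨y, rfl⟩ := h
  rw [hs_natCast_mul]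
  have hy : y ≠ 0 := fun h0 => hx (by rw [h0, mul_zero])
  have := one_le_hs hy
  have h2 : (0 : ℝ) ≤ n := Nat.cast_nonneg n
  nlinarith

/-- Siegel's lemma for twice as many unknowns as equations -/
theorem siegel (L : Type) [Field L] [NumberField L] :
    ∃ c : ℝ, 1 ≤ c ∧ ∀ (α β : Type) [Fintype α] [Fintype β] (a : Matrix α β (𝓞 L)) (A : ℝ),
      1 ≤ A → 0 < Fintype.card α → Fintype.card β = 2 * Fintype.card α →
      (∀ k l, hs (a k l) ≤ A) →
      ∃ ξ : β → 𝓞 L, ξ ≠ 0 ∧ a.mulVec ξ = 0 ∧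
        ∀ l, hs (ξ l) ≤ c * (c * (2 * Fintype.card α) * A) := by
  classical
  obtain ⟨c, hc⟩ : ∃ c : ℝ, ∀ (α β : Type) [Fintype α] [Fintype β] (a : Matrix α β (𝓞 L))
      (p q : ℕ) (A : ℝ), a ≠ 0 → 0 < p → p < q → Fintype.card α = p → Fintype.card β = q →
      (∀ k l, house (algebraMap (𝓞 L) L (a k l)) ≤ A) →
      ∃ ξ : β → 𝓞 L, ξ ≠ 0 ∧ a.mulVec ξ = 0 ∧
        ∀ l, house (ξ l).1 ≤ c * ((c * q * A) ^ ((p : ℝ) / (q - p))) :=
    ⟨_, fun α β _ _ a p q A ha h0 hpq hα hβ habs =>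
      NumberField.house.exists_ne_zero_int_vec_house_le L a ha h0 hpq hβ habs hα⟩
  refine ⟨max 1 |c|, le_max_left _ _, fun α β _ _ a A hA hα hβ habs => ?_⟩
  set c' : ℝ := max 1 |c| with hc'
  have hc1 : 1 ≤ c' := le_max_left _ _
  have hcc : |c| ≤ c' := le_max_right _ _
  have hcard : (1 : ℝ) ≤ Fintype.card α := by exact_mod_cast hα
  by_cases ha : a = 0
  · have hne : Nonempty β := Fintype.card_pos_iff.1 (by omega)
    refine ⟨fun _ => 1, fun h => one_ne_zero (congrFun h (Classical.arbitrary β)), ?_, fun l => ?_⟩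
    · rw [ha, Matrix.zero_mulVec]
    · rw [hs_one]
      have h1 : (1 : ℝ) ≤ 2 * Fintype.card α := by linarith
      have h2 : (1 : ℝ) ≤ c' * (2 * Fintype.card α) := one_le_mul_of_one_le_of_one_le hc1 h1
      have h3 : (1 : ℝ) ≤ c' * (2 * Fintype.card α) * A := one_le_mul_of_one_le_of_one_le h2 hA
      exact one_le_mul_of_one_le_of_one_le hc1 h3
  · obtain ⟨ξ, h1, h2, h3⟩ := hc α β a (Fintype.card α) (Fintype.card β) A ha hα (by omega) rfl rfl habs
    refine ⟨ξ, h1, h2, fun l => ?_⟩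
    have h4 := h3 l
    have h5 : ((Fintype.card α : ℝ) / ((Fintype.card β : ℝ) - Fintype.card α)) = 1 := by
      rw [hβ]
      push_cast
      have : (2 * (Fintype.card α : ℝ) - Fintype.card α) = Fintype.card α := by ring
      rw [this]
      exact div_self (by linarith)
    rw [h5, Real.rpow_one] at h4
    refine le_trans h4 ?_
    rw [hβ]
    push_cast
    have h6 : c * (c * (2 * (Fintype.card α : ℝ)) * A) = |c| ^ 2 * ((2 * (Fintype.card α : ℝ)) * A) := by
      rw [sq_abs]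
      ring
    have h7 : c' * (c' * (2 * (Fintype.card α : ℝ)) * A) = c' ^ 2 * ((2 * (Fintype.card α : ℝ)) * A) := by
      ring
    rw [h6, h7]
    gcongr

end house

section choose

/-- `primorial D * n.choose κ` for `κ ≤ D` has the period `p` modulo every prime `p` -/
theorem choose_modEq {D κ p : ℕ} (hp : p.Prime) (hκ : κ ≤ D) (n : ℕ) :
    primorial D * (n + p).choose κ ≡ primorial D * n.choose κ [MOD p] := by
  rcases Nat.lt_or_ge D p with h | h
  · refine Nat.ModEq.mul_left _ ?_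
    rw [Nat.add_choose_eq]
    have h1 : n.choose κ = ∑ ij ∈ Finset.HasAntidiagonal.antidiagonal κ, if ij = (κ, 0) then n.choose κ else 0 := by
      rw [Finset.sum_ite_eq' (Finset.HasAntidiagonal.antidiagonal κ) (κ, 0)]
      simp
    conv_rhs => rw [h1]
    refine Nat.ModEq.sum fun ij hij => ?_
    rw [Finset.HasAntidiagonal.mem_antidiagonal] at hij
    split_ifs with h2
    · subst h2
      simp
      rfl
    · have h3 : ij.2 ≠ 0 := by
        intro h4
        apply h2
        have h5 : ij.1 = κ := by omega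
        exact Prod.ext h5 h4
      have h4 : p ∣ p.choose ij.2 := hp.dvd_choose_self h3 (by omega)
      exact (Nat.modEq_zero_iff_dvd.2 (Dvd.dvd.mul_left h4 _))
  · have h1 : p ∣ primorial D := by
      unfold primorial
      exact Finset.dvd_prod_of_mem _ (by simp [hp]; omega)
    exact ((Nat.modEq_zero_iff_dvd.2 (Dvd.dvd.mul_right h1 _))).trans
      (Nat.modEq_zero_iff_dvd.2 (Dvd.dvd.mul_right h1 _)).symm

theorem choose_le_exp {x : ℝ} (hx : 0 < x) (hx1 : x ≤ 1) {m κ D : ℕ} (hκ : κ ≤ D) :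
    (m.choose κ : ℝ) ≤ Real.exp (x * m) * (x⁻¹) ^ D := by
  have h1 : (m.choose κ : ℝ) * x ^ κ ≤ (1 + x) ^ m := by
    rcases Nat.lt_or_ge m κ with h | h
    · rw [Nat.choose_eq_zero_of_lt h]
      simp
      positivity
    · have h2 := add_pow x 1 m
      rw [add_comm x 1] at h2
      rw [h2]
      have h3 : x ^ κ * 1 ^ (m - κ) * (m.choose κ : ℝ) ≤
          ∑ i ∈ Finset.range (m + 1), x ^ i * 1 ^ (m - i) * (m.choose i : ℝ) :=
        Finset.single_le_sum (f := fun i => x ^ i * 1 ^ (m - i) * (m.choose i : ℝ))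
          (fun i _ => by positivity) (Finset.mem_range.2 (by omega))
      linarith [h3, (by ring : x ^ κ * 1 ^ (m - κ) * (m.choose κ : ℝ) =
        (m.choose κ : ℝ) * x ^ κ * 1 ^ (m - κ)), (by simp : (m.choose κ : ℝ) * x ^ κ * 1 ^ (m - κ) =
        (m.choose κ : ℝ) * x ^ κ)]
  have h2 : (1 + x) ^ m ≤ Real.exp (x * m) := by
    have h3 : 1 + x ≤ Real.exp x := by linarith [Real.add_one_le_exp x]
    calc (1 + x) ^ m ≤ (Real.exp x) ^ m := by gcongr
      _ = Real.exp (x * m) := by rw [← Real.exp_nat_mul]; ring_nf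
  have h3 : (m.choose κ : ℝ) ≤ Real.exp (x * m) * (x⁻¹) ^ κ := by
    have h4 : 0 < x ^ κ := by positivity
    rw [inv_pow, ← div_eq_mul_inv, le_div_iff₀ h4]
    exact h1.trans h2
  refine h3.trans ?_
  have h5 : 1 ≤ x⁻¹ := (one_le_inv₀ hx).2 hx1
  gcongr

end choose

end Pool.Agent.H9.PM
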