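import Pool.Agent.H9.PM.Vec

/-!
An eventually periodic sequence of points with the period `p` modulo `p` for infinitely many primes
`p` is constant.
-/

set_option autoImplicit false

namespace Pool.Agent.H9.PM

open Finset NumberField Filter

/-- proportionality is transitive -/
theorem prop_trans {R : Type} [CommRing R] [IsDomain R] {N : ℕ} {x y z : Fin (N + 1) → R}
    (hy : y ≠ 0) (h1 : ∀ i j, x i * y j = x j * y i) (h2 : ∀ i j, y i * z j = y j * z i) :
    ∀ i j, x i * z j = x j * z i := by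
  intro i j
  obtain ⟨l, hl⟩ := Function.ne_iff.1 hy
  apply mul_left_cancel₀ (mul_ne_zero hl hl)
  linear_combination (z j * y l) * h1 i l - (x l * y i) * h2 j l - (z i * y l) * h1 j l +
    (x l * y j) * h2 i l

theorem prop_symm {R : Type} [CommRing R] {N : ℕ} {x y : Fin (N + 1) → R}
    (h1 : ∀ i j, x i * y j = x j * y i) : ∀ i j, y i * x j = y j * x i := by
  intro i j
  linear_combination h1 j i

theorem infinite_of_dense {γ : ℝ} (hγ : 0 < γ) {P : Set ℕ} (h : Dense γ P) : P.Infinite := by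
  classical
  intro hfin
  unfold Dense at h
  have h1 : ∀ m : ℕ, ∑ p ∈ (range (m + 1)).filter (· ∈ P), Real.log p ≤
      ∑ p ∈ hfin.toFinset, Real.log p := by
    intro m
    refine Finset.sum_le_sum_of_subset_of_nonneg ?_ fun p _ _ => Real.log_natCast_nonneg p
    intro p hp
    rw [Set.Finite.mem_toFinset]
    convert (Finset.mem_filter.1 hp).2
  have h2 : ∀ᶠ m : ℕ in atTop, ∑ p ∈ hfin.toFinset, Real.log p < γ * m :=
    (Filter.Tendsto.const_mul_atTop hγ tendsto_natCast_atTop_atTop).eventually_gt_atTop _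
  obtain ⟨m, h3, h4⟩ := (h.and h2).exists
  have h5 := h1 m
  have h6 : γ * m ≤ ∑ p ∈ (range (m + 1)).filter (· ∈ P), Real.log p := by
    convert h3
  linarith

theorem const_of_periodic {L : Type} [Field L] [NumberField L] {N : ℕ} {P : Set ℕ}
    (hP : ∀ p ∈ P, p.Prime) (hinf : P.Infinite) {q : ℕ} (hq : q ≠ 0)
    {a : ℕ → Fin (N + 1) → 𝓞 L} (h : ModPrimes P q a) {k m0 : ℕ} (hk : 0 < k)
    (hper : ∀ m, m0 ≤ m → ∀ i j, a (m + k) i * a m j = a (m + k) j * a m i) :
    ∀ m n i j, a m i * a n j = a m j * a n i := by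
  classical
  have hqL : (q : 𝓞 L) ≠ 0 := Nat.cast_ne_zero.2 hq
  have hne := h.ne_zero hqL
  -- representatives
  have hrep : ∀ n, ∃ r < m0 + k, ∀ i j, a n i * a r j = a n j * a r i := by
    intro n
    induction n using Nat.strong_induction_on with
    | _ n ih =>
      by_cases hn : n < m0 + k
      · exact ⟨n, hn, fun i j => mul_comm _ _⟩
      · obtain ⟨r, hr, h1⟩ := ih (n - k) (by omega)
        refine ⟨r, hr, prop_trans (hne (n - k)) ?_ h1⟩
        have h2 := hper (n - k) (by omega)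
        rwa [show n - k + k = n by omega] at h2
  have hmul : ∀ n r, (∀ i j, a n i * a r j = a n j * a r i) → ∃ t : 𝓞 L, ∀ i,
      q * a r i = t * a n i := by
    intro n r h1
    obtain ⟨s, hs⟩ := (Ideal.mem_span_range_iff_exists_fun).1 (h.content n)
    refine ⟨∑ j, s j * a r j, fun i => ?_⟩
    rw [← hs, Finset.sum_mul, Finset.sum_mul]
    refine Finset.sum_congr rfl fun j _ => ?_
    linear_combination (s j) * h1 j i
  set B : ℝ := ∑ r ∈ range (m0 + k), ∑ r' ∈ range (m0 + k), ∑ i, ∑ j,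
    hs ((q : 𝓞 L) ^ 2 * (a r' i * a r j - a r' j * a r i)) with hB
  have hle : ∀ r r' : ℕ, r < m0 + k → r' < m0 + k → ∀ i j,
      hs ((q : 𝓞 L) ^ 2 * (a r' i * a r j - a r' j * a r i)) ≤ B := by
    intro r r' hr hr' i j
    rw [hB]
    refine le_trans ?_ (Finset.single_le_sum (f := fun r => ∑ r' ∈ range (m0 + k), ∑ i, ∑ j,
      hs ((q : 𝓞 L) ^ 2 * (a r' i * a r j - a r' j * a r i))) (fun _ _ => Finset.sum_nonneg fun _ _ =>
      Finset.sum_nonneg fun _ _ => Finset.sum_nonneg fun _ _ => hs_nonneg _) (mem_range.2 hr))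
    refine le_trans ?_ (Finset.single_le_sum (f := fun r' => ∑ i, ∑ j,
      hs ((q : 𝓞 L) ^ 2 * (a r' i * a r j - a r' j * a r i))) (fun _ _ =>
      Finset.sum_nonneg fun _ _ => Finset.sum_nonneg fun _ _ => hs_nonneg _) (mem_range.2 hr'))
    refine le_trans ?_ (Finset.single_le_sum (f := fun i => ∑ j,
      hs ((q : 𝓞 L) ^ 2 * (a r' i * a r j - a r' j * a r i))) (fun _ _ =>
      Finset.sum_nonneg fun _ _ => hs_nonneg _) (mem_univ i))
    exact Finset.single_le_sum (f := fun j =>
      hs ((q : 𝓞 L) ^ 2 * (a r' i * a r j - a r' j * a r i))) (fun _ _ => hs_nonneg _) (mem_univ j)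
  have hbig : ∀ p ∈ P, B < p → ∀ n i j, a (n + p) i * a n j = a (n + p) j * a n i := by
    intro p hp hpB n
    obtain ⟨r, hr, h1⟩ := hrep n
    obtain ⟨r', hr', h1'⟩ := hrep (n + p)
    obtain ⟨t, ht⟩ := hmul n r h1
    obtain ⟨t', ht'⟩ := hmul (n + p) r' h1'
    have h2 : ∀ i j, a r' i * a r j = a r' j * a r i := by
      intro i j
      have h3 : (p : 𝓞 L) ∣ (q : 𝓞 L) ^ 2 * (a r' i * a r j - a r' j * a r i) := by
        have h4 : (q : 𝓞 L) ^ 2 * (a r' i * a r j - a r' j * a r i) =
            (t' * t) * (a (n + p) i * a n j - a (n + p) j * a n i) := by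
          linear_combination (q * a r j) * ht' i + (t' * a (n + p) i) * ht j -
            (q * a r i) * ht' j - (t' * a (n + p) j) * ht i
        rw [h4]
        exact Dvd.dvd.mul_left (h.periodic p hp n i j) _
      by_contra hcon
      have h5 := le_hs_of_dvd (mul_ne_zero (pow_ne_zero 2 hqL) (sub_ne_zero.2 hcon)) h3
      linarith [hle r r' hr hr' i j]
    exact prop_trans (hne r) (prop_trans (hne r') h1' h2) (prop_symm h1)
  obtain ⟨p1, hp1, hp1B⟩ := hinf.exists_gt (⌈B⌉₊)
  obtain ⟨p2, hp2, hp2B⟩ := hinf.exists_gt p1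
  have hb1 : B < p1 := (Nat.le_ceil B).trans_lt (by exact_mod_cast hp1B)
  have hb2 : B < p2 := hb1.trans (by exact_mod_cast hp2B)
  have hmany : ∀ p ∈ P, B < p → ∀ u n i j, a (n + u * p) i * a n j = a (n + u * p) j * a n i := by
    intro p hp hpB u
    induction u with
    | zero =>
      intro n i j
      rw [zero_mul, add_zero]
      exact mul_comm _ _
    | succ u ih =>
      intro n
      have h1 := hbig p hp hpB (n + u * p)
      rw [show n + u * p + p = n + (u + 1) * p by ring] at h1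
      exact prop_trans (hne _) h1 (ih n)
  have hcop : Nat.Coprime p1 p2 := by
    rw [Nat.coprime_primes (hP p1 hp1) (hP p2 hp2)]
    exact hp2B.ne
  -- `u * p1 = v * p2 + 1`
  obtain ⟨u, v, huv⟩ : ∃ u v : ℕ, u * p1 = v * p2 + 1 := by
    obtain ⟨u, -, hu⟩ := Nat.exists_mul_mod_eq_one_of_coprime hcop (hP p2 hp2).one_lt
    refine ⟨u, p1 * u / p2, ?_⟩
    have h1 := Nat.div_add_mod (p1 * u) p2
    rw [hu] at h1
    rw [mul_comm u p1, mul_comm (p1 * u / p2) p2]
    exact h1.symm
  have hstep : ∀ n i j, a (n + 1) i * a n j = a (n + 1) j * a n i := by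
    intro n
    have h1 := hmany p1 hp1 hb1 u n
    have h2 := hmany p2 hp2 hb2 v (n + 1)
    rw [show n + 1 + v * p2 = n + u * p1 by omega] at h2
    exact prop_trans (hne _) (prop_symm h2) h1
  have hzero : ∀ n i j, a n i * a 0 j = a n j * a 0 i := by
    intro n
    induction n with
    | zero => intro i j; exact mul_comm _ _
    | succ n ih => exact prop_trans (hne n) (hstep n) ih
  intro m n
  exact prop_trans (hne 0) (hzero m) (prop_symm (hzero n))

end Pool.Agent.H9.PM
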