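import Pool.Agent.H9.PM.Basic

/-!
Sequences of points of the projective line over a number field which have the period `p` modulo `p`
for many primes `p` satisfy recurrences with polynomial coefficients.
-/

set_option autoImplicit false

namespace Pool.Agent.H9.PM

open Finset NumberField Filter

variable {L : Type} [Field L] [NumberField L]

/-- the logarithm of the product of the primes in `P` up to `m` is at least `γ m`, for large `m` -/
def Dense (γ : ℝ) (P : Set ℕ) : Prop :=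
  open Classical in ∀ᶠ m : ℕ in atTop, γ * m ≤ ∑ p ∈ (range (m + 1)).filter (· ∈ P), Real.log p

/-- the points `(u n : v n)` and `(u (n + p) : v (n + p))` are the same modulo `p`, for `p` in `P` -/
def Cong (P : Set ℕ) (q : ℕ) (u v : ℕ → 𝓞 L) : Prop :=
  ∀ p ∈ P, ∀ n, ∃ t : 𝓞 L, (p : 𝓞 L) ∣ q * u (n + p) - t * u n ∧ (p : 𝓞 L) ∣ q * v (n + p) - t * v n

/-- the multilinear expressions in the recurrence -/
noncomputable def ww (k : ℕ) (u v : ℕ → 𝓞 L) (i n : ℕ) : 𝓞 L :=
  u (n + i) * ∏ l ∈ (range k).erase i, v (n + l)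

/-- the auxiliary sequence -/
noncomputable def GG (k D : ℕ) (ξ : ℕ → ℕ → 𝓞 L) (u v : ℕ → 𝓞 L) (n : ℕ) : 𝓞 L :=
  ∑ i ∈ range k, ∑ κ ∈ range (D + 1),
    ((primorial D * n.choose κ : ℕ) : 𝓞 L) * ww k u v i n * ξ i κ

theorem dvd_step {P : Set ℕ} {q : ℕ} {u v : ℕ → 𝓞 L} (h : Cong P q u v)
    {k D : ℕ} {ξ : ℕ → ℕ → 𝓞 L} {p : ℕ} (hp : p.Prime) (hpP : p ∈ P) {n : ℕ}
    (h0 : GG k D ξ u v n = 0) : (p : 𝓞 L) ∣ (q : 𝓞 L) ^ k * GG k D ξ u v (n + p) := by
  classical
  choose t ht using fun l => h p hpP (n + l)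
  set φ := Ideal.Quotient.mk (Ideal.span {(p : 𝓞 L)}) with hφ
  have key : ∀ x : 𝓞 L, φ x = 0 ↔ (p : 𝓞 L) ∣ x := fun x => by
    rw [hφ, Ideal.Quotient.eq_zero_iff_mem, Ideal.mem_span_singleton]
  have hu : ∀ l, φ (q * u (n + p + l)) = φ (t l) * φ (u (n + l)) := fun l => by
    have h1 := (key _).2 (ht l).1
    rw [map_sub, sub_eq_zero, map_mul φ (t l)] at h1
    rw [← h1]
    congr 3
    ring
  have hv : ∀ l, φ (q * v (n + p + l)) = φ (t l) * φ (v (n + l)) := fun l => by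
    have h1 := (key _).2 (ht l).2
    rw [map_sub, sub_eq_zero, map_mul φ (t l)] at h1
    rw [← h1]
    congr 3
    ring
  have hw : ∀ i ∈ range k, φ ((q : 𝓞 L) ^ k * ww k u v i (n + p)) =
      (∏ l ∈ range k, φ (t l)) * φ (ww k u v i n) := by
    intro i hi
    have h1 : (q : 𝓞 L) ^ k * ww k u v i (n + p) =
        (q * u (n + p + i)) * ∏ l ∈ (range k).erase i, (q * v (n + p + l)) := by
      unfold ww
      rw [Finset.prod_mul_distrib, Finset.prod_const, Finset.card_erase_of_mem hi,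
        Finset.card_range]
      have h2 : (q : 𝓞 L) ^ k = q * (q : 𝓞 L) ^ (k - 1) := by
        have : k ≠ 0 := by
          rintro rfl
          simp at hi
        rw [← pow_succ', Nat.sub_add_cancel (Nat.one_le_iff_ne_zero.2 this)]
      rw [h2]
      ring
    rw [h1, map_mul, hu, map_prod, Finset.prod_congr rfl fun l _ => hv l, Finset.prod_mul_distrib]
    unfold ww
    rw [map_mul, map_prod, ← Finset.mul_prod_erase _ _ hi]
    ring
  have hc : ∀ κ ∈ range (D + 1), φ ((primorial D * (n + p).choose κ : ℕ) : 𝓞 L) =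
      φ ((primorial D * n.choose κ : ℕ) : 𝓞 L) := by
    intro κ hκ
    have h1 := choose_modEq (D := D) (κ := κ) hp (by rw [Finset.mem_range] at hκ; omega) n
    have h2 := (Nat.modEq_iff_dvd.1 h1)
    have h3 : (p : 𝓞 L) ∣ ((primorial D * n.choose κ : ℕ) : 𝓞 L) -
        ((primorial D * (n + p).choose κ : ℕ) : 𝓞 L) := by
      have h4 := map_dvd (Int.castRingHom (𝓞 L)) h2
      simpa using h4
    have h4 := (key _).2 h3
    rw [map_sub, sub_eq_zero] at h4
    exact h4.symm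
  rw [← key]
  have h1 : (q : 𝓞 L) ^ k * GG k D ξ u v (n + p) = ∑ i ∈ range k, ∑ κ ∈ range (D + 1),
      ((primorial D * (n + p).choose κ : ℕ) : 𝓞 L) * ((q : 𝓞 L) ^ k * ww k u v i (n + p)) * ξ i κ := by
    unfold GG
    rw [Finset.mul_sum]
    refine Finset.sum_congr rfl fun i _ => ?_
    rw [Finset.mul_sum]
    refine Finset.sum_congr rfl fun κ _ => ?_
    ring
  have h2 : φ ((q : 𝓞 L) ^ k * GG k D ξ u v (n + p)) =
      (∏ l ∈ range k, φ (t l)) * φ (GG k D ξ u v n) := by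
    rw [h1]
    unfold GG
    rw [map_sum, map_sum, Finset.mul_sum]
    refine Finset.sum_congr rfl fun i hi => ?_
    rw [map_sum, map_sum, Finset.mul_sum]
    refine Finset.sum_congr rfl fun κ hκ => ?_
    rw [map_mul, map_mul, hw i hi, hc κ hκ, map_mul, map_mul]
    ring
  rw [h2, h0, map_zero, mul_zero]

/-- the products of distinct primes divide -/
theorem prod_dvd {P : Set ℕ} (hP : ∀ p ∈ P, p.Prime) {s : Finset ℕ} (hs : ∀ p ∈ s, p ∈ P)
    {x : 𝓞 L} (h : ∀ p ∈ s, (p : 𝓞 L) ∣ x) : ((∏ p ∈ s, p : ℕ) : 𝓞 L) ∣ x := by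
  rw [Nat.cast_prod]
  refine Finset.prod_dvd_of_coprime (fun a ha b hb hab => ?_) h
  have h1 : Nat.Coprime a b := (Nat.coprime_primes (hP a (hs a ha)) (hP b (hs b hb))).2 hab
  have h2 := (Nat.isCoprime_iff_coprime.2 h1).map (Int.castRingHom (𝓞 L))
  simpa using h2

/-- extrapolation: the auxiliary sequence vanishes everywhere -/
theorem extrapolate {P : Set ℕ} (hP : ∀ p ∈ P, p.Prime) {q : ℕ} (hq : q ≠ 0) {u v : ℕ → 𝓞 L}
    (h : Cong P q u v) {k D M : ℕ} {ξ : ℕ → ℕ → 𝓞 L} {γ : ℝ}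
    (h0 : ∀ n < M, GG k D ξ u v n = 0)
    (hd : ∀ m, M ≤ m → open Classical in
      γ * m ≤ ∑ p ∈ (range (m + 1)).filter (· ∈ P), Real.log p)
    (hb : ∀ m, M ≤ m → (q : ℝ) ^ k * hs (GG k D ξ u v m) < Real.exp (γ * m)) (m : ℕ) :
    GG k D ξ u v m = 0 := by
  classical
  induction m using Nat.strong_induction_on with
  | _ m ih =>
    rcases Nat.lt_or_ge m M with hm | hm
    · exact h0 m hm
    · by_contra hne
      have h1 : ∀ p ∈ (range (m + 1)).filter (· ∈ P),
          (p : 𝓞 L) ∣ (q : 𝓞 L) ^ k * GG k D ξ u v m := by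
        intro p hp
        rw [Finset.mem_filter, Finset.mem_range] at hp
        have hpp := hP p hp.2
        have h2 := ih (m - p) (by have := hpp.pos; omega)
        have h3 := dvd_step h hpp hp.2 h2
        rwa [Nat.sub_add_cancel (by omega)] at h3
      have h2 := prod_dvd hP (s := (range (m + 1)).filter (· ∈ P))
        (fun p hp => (Finset.mem_filter.1 hp).2) h1
      have hqL : (q : 𝓞 L) ≠ 0 := Nat.cast_ne_zero.2 hq
      have h3 := le_hs_of_dvd (mul_ne_zero (pow_ne_zero k hqL) hne) h2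
      have h4 : hs ((q : 𝓞 L) ^ k * GG k D ξ u v m) ≤ (q : ℝ) ^ k * hs (GG k D ξ u v m) := by
        have h5 := hs_natCast_mul (L := L) (q ^ k) (GG k D ξ u v m)
        rw [Nat.cast_pow, Nat.cast_pow] at h5
        exact h5.le
      have h5 : Real.exp (γ * m) ≤ ((∏ p ∈ (range (m + 1)).filter (· ∈ P), p : ℕ) : ℝ) := by
        rw [Nat.cast_prod, ← Real.exp_log (x := ∏ p ∈ (range (m + 1)).filter (· ∈ P), (p : ℝ))
          (Finset.prod_pos fun p hp => by
            exact_mod_cast (hP p (Finset.mem_filter.1 hp).2).pos)]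
        rw [Real.exp_le_exp, Real.log_prod (fun p hp => by
          exact_mod_cast (hP p (Finset.mem_filter.1 hp).2).ne_zero)]
        exact hd m hm
      exact absurd (h5.trans (h3.trans h4)) (not_le.2 (hb m hm))

/-- bound of the auxiliary sequence -/
theorem hs_ww_le {C c : ℝ} (hC : 1 ≤ C) (hc : 0 ≤ c) {u v : ℕ → 𝓞 L}
    (hu : ∀ n, hs (u n) ≤ C * Real.exp (c * n)) (hv : ∀ n, hs (v n) ≤ C * Real.exp (c * n))
    {k i : ℕ} (hi : i < k) (n : ℕ) :
    hs (ww k u v i n) ≤ (C * Real.exp (c * (n + k))) ^ k := by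
  have hmono : ∀ l, l < k → C * Real.exp (c * ((n + l : ℕ) : ℝ)) ≤ C * Real.exp (c * (n + k)) := by
    intro l hl
    have h1 : (l : ℝ) ≤ k := by exact_mod_cast hl.le
    push_cast
    gcongr
  have hC0 : 0 ≤ C := by linarith
  have h1 : hs (ww k u v i n) ≤ (C * Real.exp (c * (n + k))) *
      ∏ l ∈ (range k).erase i, (C * Real.exp (c * (n + k))) := by
    unfold ww
    refine (hs_mul_le _ _).trans (mul_le_mul ((hu _).trans (hmono i hi)) ?_ (hs_nonneg _)
      (by positivity))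
    refine (hs_prod_le _ _).trans (Finset.prod_le_prod (fun _ _ => hs_nonneg _) fun l hl => ?_)
    exact (hv _).trans (hmono l (Finset.mem_range.1 (Finset.mem_of_mem_erase hl)))
  refine h1.trans (le_of_eq ?_)
  rw [Finset.prod_const, Finset.card_erase_of_mem (Finset.mem_range.2 hi), Finset.card_range,
    ← pow_succ', Nat.sub_add_cancel (by omega)]

theorem primorial_le (D : ℕ) : ((primorial D : ℕ) : ℝ) ≤ 4 ^ D := by
  exact_mod_cast primorial_le_four_pow D

theorem hs_GG_le {C c x H : ℝ} (hC : 1 ≤ C) (hc : 0 ≤ c) (hx : 0 < x) (hx1 : x ≤ 1) {u v : ℕ → 𝓞 L}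
    (hu : ∀ n, hs (u n) ≤ C * Real.exp (c * n)) (hv : ∀ n, hs (v n) ≤ C * Real.exp (c * n))
    {k D : ℕ} {ξ : ℕ → ℕ → 𝓞 L} (hξ : ∀ i κ, hs (ξ i κ) ≤ H) (n : ℕ) :
    hs (GG k D ξ u v n) ≤ k * (D + 1) *
      ((4 ^ D * (Real.exp (x * n) * (x⁻¹) ^ D)) * (C * Real.exp (c * (n + k))) ^ k * H) := by
  have hH : 0 ≤ H := (hs_nonneg (ξ 0 0)).trans (hξ 0 0)
  unfold GG
  refine (hs_sum_le _ _).trans ?_
  have h1 : ∀ i ∈ range k, hs (∑ κ ∈ range (D + 1),
      ((primorial D * n.choose κ : ℕ) : 𝓞 L) * ww k u v i n * ξ i κ) ≤ (D + 1) *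
      ((4 ^ D * (Real.exp (x * n) * (x⁻¹) ^ D)) * (C * Real.exp (c * (n + k))) ^ k * H) := by
    intro i hi
    refine (hs_sum_le _ _).trans ?_
    have h2 : ∀ κ ∈ range (D + 1), hs (((primorial D * n.choose κ : ℕ) : 𝓞 L) * ww k u v i n * ξ i κ) ≤
        (4 ^ D * (Real.exp (x * n) * (x⁻¹) ^ D)) * (C * Real.exp (c * (n + k))) ^ k * H := by
      intro κ hκ
      refine (hs_mul_le _ _).trans (mul_le_mul ?_ (hξ i κ) (hs_nonneg _) (by positivity))
      refine (hs_mul_le _ _).trans (mul_le_mul ?_ (hs_ww_le hC hc hu hv (Finset.mem_range.1 hi) n)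
        (hs_nonneg _) (by positivity))
      rw [hs_natCast, Nat.cast_mul]
      refine mul_le_mul (primorial_le D) (choose_le_exp hx hx1 ?_) (by positivity) (by positivity)
      rw [Finset.mem_range] at hκ
      omega
    refine (Finset.sum_le_sum h2).trans (le_of_eq ?_)
    rw [Finset.sum_const, Finset.card_range, nsmul_eq_mul]
    push_cast
    ring
  refine (Finset.sum_le_sum h1).trans (le_of_eq ?_)
  rw [Finset.sum_const, Finset.card_range, nsmul_eq_mul]
  ring

end Pool.Agent.H9.PM
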