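import Pool.Agent.H9.PM.Core

/-!
The existence of the recurrence.
-/

set_option autoImplicit false

namespace Pool.Agent.H9.PM

open Finset NumberField Filter

theorem exists_threshold (A γ : ℝ) (hγ : 0 < γ) :
    ∃ m₁ : ℕ, ∀ m : ℕ, m₁ ≤ m → A * (m : ℝ) ^ 2 * Real.exp (3 / 8 * γ * m) < Real.exp (γ * m) := by
  have h1 : Tendsto (fun m : ℕ => A * ((m : ℝ) ^ 2 * Real.exp (-(5 / 8 * γ) * m))) atTop (nhds 0) := by
    have h2 := (tendsto_rpow_mul_exp_neg_mul_atTop_nhds_zero 2 (5 / 8 * γ)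
      (by positivity)).comp tendsto_natCast_atTop_atTop
    have h3 := h2.const_mul A
    rw [mul_zero] at h3
    refine h3.congr fun m => ?_
    simp only [Function.comp_apply, Real.rpow_two]
  have h2 := h1.eventually (gt_mem_nhds (show (0 : ℝ) < 1 by norm_num))
  obtain ⟨m₁, hm₁⟩ := eventually_atTop.1 h2
  refine ⟨m₁, fun m hm => ?_⟩
  have h3 := hm₁ m hm
  have h4 : Real.exp (γ * m) = Real.exp (5 / 8 * γ * m) * Real.exp (3 / 8 * γ * m) := by
    rw [← Real.exp_add]
    ring_nf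
  have h5 : Real.exp (-(5 / 8 * γ) * m) = (Real.exp (5 / 8 * γ * m))⁻¹ := by
    rw [← Real.exp_neg]
    ring_nf
  rw [h5, ← mul_assoc, ← div_eq_mul_inv, div_lt_one (Real.exp_pos _)] at h3
  rw [h4]
  exact mul_lt_mul_of_pos_right h3 (Real.exp_pos _)

theorem exists_aux (γ : ℝ) (hγ : 0 < γ) : ∃ (c : ℝ) (k : ℕ), 0 < c ∧ 0 < k ∧
    ∀ (L : Type) [Field L] [NumberField L] (P : Set ℕ) (q : ℕ) (C : ℝ) (u v : ℕ → 𝓞 L),
      (∀ p ∈ P, p.Prime) → Dense γ P → q ≠ 0 → Cong P q u v →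
      (∀ n, hs (u n) ≤ C * Real.exp (c * n)) → (∀ n, hs (v n) ≤ C * Real.exp (c * n)) →
      ∃ (D : ℕ) (ξ : ℕ → ℕ → 𝓞 L), (∃ i < k, ∃ κ < D + 1, ξ i κ ≠ 0) ∧
        ∀ n, GG k D ξ u v n = 0 := by
  classical
  -- the parameters
  obtain ⟨δ, hδ0, hδ1, hδγ⟩ : ∃ δ : ℝ, 0 < δ ∧ δ ≤ 1 ∧ δ ≤ γ :=
    ⟨min γ 1, lt_min hγ one_pos, min_le_right _ _, min_le_left _ _⟩
  set x : ℝ := δ / 16 with hxdef
  have hx : 0 < x := by positivity
  have hx1 : x ≤ 1 := by rw [hxdef]; linarith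
  obtain ⟨s, hs0, hs1⟩ : ∃ s : ℕ, 0 < s ∧ 2 * (Real.log 4 + Real.log x⁻¹) ≤ δ / 8 * s := by
    obtain ⟨s, hs⟩ := exists_nat_gt (2 * (Real.log 4 + Real.log x⁻¹) / (δ / 8))
    refine ⟨s + 1, Nat.succ_pos _, ?_⟩
    rw [div_lt_iff₀ (by positivity)] at hs
    push_cast
    nlinarith
  set k : ℕ := 2 * s with hk
  have hk0 : 0 < k := by omega
  have hkR : (0 : ℝ) < k := by exact_mod_cast hk0
  set c : ℝ := δ / (16 * k) with hc
  have hc0 : 0 < c := by positivity
  refine ⟨c, k, hc0, hk0, fun L _ _ P q C₀ u v hP hd hq hcong hu₀ hv₀ => ?_⟩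
  set C : ℝ := max C₀ 1 with hC
  have hC1 : 1 ≤ C := le_max_right _ _
  have hu : ∀ n, hs (u n) ≤ C * Real.exp (c * n) := fun n => (hu₀ n).trans
    (mul_le_mul_of_nonneg_right (le_max_left _ _) (Real.exp_pos _).le)
  have hv : ∀ n, hs (v n) ≤ C * Real.exp (c * n) := fun n => (hv₀ n).trans
    (mul_le_mul_of_nonneg_right (le_max_left _ _) (Real.exp_pos _).le)
  obtain ⟨c₁, hc₁, hsie⟩ := siegel L
  -- thresholds
  obtain ⟨m₀, hm₀⟩ := eventually_atTop.1 hd
  obtain ⟨m₁, hm₁⟩ := exists_threshold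
    ((q : ℝ) ^ k * (4 * c₁ ^ 2) * Real.exp (2 * (k * Real.log C + c * k ^ 2))) δ hδ0
  set D : ℕ := max m₀ m₁ with hD
  set M : ℕ := s * (D + 1) with hM
  have hDM : D ≤ M := by
    rw [hM]
    calc D ≤ 1 * (D + 1) := by omega
      _ ≤ s * (D + 1) := Nat.mul_le_mul_right _ hs0
  have hM0 : 0 < M := Nat.mul_pos hs0 (Nat.succ_pos _)
  -- the function `E`
  let E : ℕ → ℝ := fun m => (4 ^ D * (Real.exp (x * m) * (x⁻¹) ^ D)) * (C * Real.exp (c * (m + k))) ^ k
  have hx' : 1 ≤ x⁻¹ := (one_le_inv₀ hx).2 hx1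
  have hE1 : ∀ m, 1 ≤ E m := by
    intro m
    have h1 : (1 : ℝ) ≤ 4 ^ D := one_le_pow₀ (by norm_num)
    have h2 : 1 ≤ Real.exp (x * m) := Real.one_le_exp (by positivity)
    have h3 : 1 ≤ (x⁻¹) ^ D := one_le_pow₀ hx'
    have h4 : 1 ≤ Real.exp (c * (m + k)) := Real.one_le_exp (by positivity)
    have h5 : 1 ≤ (C * Real.exp (c * (m + k))) ^ k :=
      one_le_pow₀ (one_le_mul_of_one_le_of_one_le hC1 h4)
    exact one_le_mul_of_one_le_of_one_le (one_le_mul_of_one_le_of_one_le h1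
      (one_le_mul_of_one_le_of_one_le h2 h3)) h5
  have hEmono : ∀ m m' : ℕ, m ≤ m' → E m ≤ E m' := by
    intro m m' h
    have h1 : (m : ℝ) ≤ m' := by exact_mod_cast h
    have hC0 : 0 ≤ C := by linarith
    simp only [E]
    gcongr
  -- the matrix
  let a : Matrix (Fin M) (Fin k × Fin (D + 1)) (𝓞 L) := fun n j =>
    ((primorial D * (n : ℕ).choose j.2 : ℕ) : 𝓞 L) * ww k u v j.1 n
  have hcard : Fintype.card (Fin k × Fin (D + 1)) = 2 * Fintype.card (Fin M) := by
    simp only [Fintype.card_prod, Fintype.card_fin]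
    rw [hk, hM]
    ring
  obtain ⟨ξ', hξ0, hξa, hξb⟩ := hsie (Fin M) (Fin k × Fin (D + 1)) a (E M) (hE1 M)
    (by simpa using hM0) hcard (by
      intro n j
      refine (hs_mul_le _ _).trans ?_
      refine (mul_le_mul ?_ (hs_ww_le hC1 hc0.le hu hv j.1.2 n) (hs_nonneg _)
        (by positivity : (0 : ℝ) ≤ 4 ^ D * (Real.exp (x * (n : ℕ)) * (x⁻¹) ^ D))).trans
          (hEmono n M n.2.le)
      rw [hs_natCast, Nat.cast_mul]
      exact mul_le_mul (primorial_le D) (choose_le_exp hx hx1 (by have := j.2.2; omega))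
        (by positivity) (by positivity))
  set H : ℝ := c₁ * (c₁ * (2 * (M : ℝ)) * E M) with hH
  have hH0 : 0 ≤ H := by
    have := hE1 M
    positivity
  let ξ : ℕ → ℕ → 𝓞 L := fun i κ => if h : i < k ∧ κ < D + 1 then ξ' (⟨i, h.1⟩, ⟨κ, h.2⟩) else 0
  have hξH : ∀ i κ, hs (ξ i κ) ≤ H := by
    intro i κ
    simp only [ξ]
    split_ifs with h
    · have := hξb (⟨i, h.1⟩, ⟨κ, h.2⟩)
      rw [Fintype.card_fin] at this
      exact this
    · rw [hs_zero]
      exact hH0
  have hξF : ∀ (i : Fin k) (κ : Fin (D + 1)), ξ i κ = ξ' (i, κ) := by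
    intro i κ
    simp only [ξ]
    rw [dif_pos ⟨i.2, κ.2⟩]
  refine ⟨D, ξ, ?_, ?_⟩
  · obtain ⟨⟨i, κ⟩, hi⟩ := Function.ne_iff.1 hξ0
    exact ⟨i, i.2, κ, κ.2, by rw [hξF]; exact hi⟩
  · refine extrapolate hP hq hcong (M := M) (γ := γ) ?_ ?_ ?_
    · intro n hn
      have h1 := congrFun hξa ⟨n, hn⟩
      rw [Pi.zero_apply] at h1
      rw [← h1]
      unfold GG Matrix.mulVec dotProduct
      rw [Fintype.sum_prod_type, Finset.sum_range]
      refine Finset.sum_congr rfl fun i _ => ?_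
      rw [Finset.sum_range]
      refine Finset.sum_congr rfl fun κ _ => ?_
      rw [hξF]
    · intro m hm
      exact hm₀ m (((le_max_left m₀ m₁).trans hDM).trans hm)
    · intro m hm
      have hMm : (M : ℝ) ≤ m := by exact_mod_cast hm
      have hm1 := hm₁ m (((le_max_right m₀ m₁).trans hDM).trans hm)
      have h1 := hs_GG_le hC1 hc0.le hx hx1 hu hv (k := k) (D := D) hξH m
      have h2 : (k : ℝ) * (D + 1) = 2 * M := by
        rw [hk, hM]
        push_cast
        ring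
      rw [h2] at h1
      have hE : E m = Real.exp (D * (Real.log 4 + Real.log x⁻¹) + x * m + k * Real.log C +
          c * k * (m + k)) := by
        have h3 : (4 : ℝ) ^ D = Real.exp (D * Real.log 4) := by
          rw [← Real.log_pow, Real.exp_log (by positivity)]
        have h4 : (x⁻¹) ^ D = Real.exp (D * Real.log x⁻¹) := by
          rw [← Real.log_pow, Real.exp_log (by positivity)]
        have h5 : (C * Real.exp (c * (m + k))) ^ k = Real.exp (k * Real.log C + c * k * (m + k)) := by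
          rw [mul_pow, ← Real.exp_nat_mul, Real.exp_add, ← Real.log_pow,
            Real.exp_log (by positivity)]
          ring_nf
        simp only [E]
        rw [h3, h4, h5, ← Real.exp_add, ← Real.exp_add, ← Real.exp_add]
        ring_nf
      have hDs : (D : ℝ) * s ≤ m := by
        have h3 : (D : ℝ) * s ≤ M := by
          rw [hM]
          push_cast
          nlinarith [(Nat.cast_nonneg s : (0 : ℝ) ≤ s)]
        linarith
      have hlog0 : 0 ≤ Real.log 4 + Real.log x⁻¹ :=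
        add_nonneg (Real.log_nonneg (by norm_num)) (Real.log_nonneg hx')
      have hsR : (0 : ℝ) < s := by exact_mod_cast hs0
      have h6 : 2 * (D * (Real.log 4 + Real.log x⁻¹)) ≤ δ / 8 * m := by
        have h7 : 2 * (D * (Real.log 4 + Real.log x⁻¹)) ≤ D * (δ / 8 * s) := by
          have := mul_le_mul_of_nonneg_left hs1 (Nat.cast_nonneg D : (0 : ℝ) ≤ D)
          linarith
        nlinarith
      have h8 : c * k = δ / 16 := by
        rw [hc]
        field_simp
      have hE2 : E m * E m ≤ Real.exp (2 * (k * Real.log C + c * k ^ 2)) *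
          Real.exp (3 / 8 * δ * m) := by
        rw [hE, ← Real.exp_add, ← Real.exp_add, Real.exp_le_exp]
        have h9 : c * k * (m + k) = δ / 16 * m + c * k ^ 2 := by
          rw [mul_add, h8]
          have : c * (k : ℝ) ^ 2 = δ / 16 * k := by
            rw [← h8]
            ring
          rw [this]
        rw [h9, hxdef]
        nlinarith
      have hE0 : 0 ≤ E m := zero_le_one.trans (hE1 m)
      have hEM : E M ≤ E m := hEmono M m hm
      have hEM0 : 0 ≤ E M := zero_le_one.trans (hE1 M)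
      have hM0' : (0 : ℝ) ≤ M := Nat.cast_nonneg _
      have hMM : (M : ℝ) * M ≤ m * m := mul_le_mul hMm hMm hM0' (hM0'.trans hMm)
      have hEE : E m * E M ≤ E m * E m := mul_le_mul_of_nonneg_left hEM hE0
      have hEE0 : 0 ≤ E m * E M := mul_nonneg hE0 hEM0
      have hmm0 : (0 : ℝ) ≤ m * m := mul_self_nonneg _
      have hQ0 : 0 ≤ (q : ℝ) ^ k * (4 * c₁ ^ 2) := by positivity
      have hfin := mul_le_mul_of_nonneg_left ((mul_le_mul hMM hEE hEE0 hmm0).trans
        (mul_le_mul_of_nonneg_left hE2 hmm0)) hQ0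
      calc (q : ℝ) ^ k * hs (GG k D ξ u v m) ≤ (q : ℝ) ^ k * (2 * M * (E m * H)) := by
            refine mul_le_mul_of_nonneg_left ?_ (by positivity)
            exact h1
        _ = (q : ℝ) ^ k * (4 * c₁ ^ 2) * (M * M * (E m * E M)) := by
            rw [hH]
            ring
        _ ≤ (q : ℝ) ^ k * (4 * c₁ ^ 2) * (m * m * (Real.exp (2 * (k * Real.log C + c * k ^ 2)) *
              Real.exp (3 / 8 * δ * m))) := hfin
        _ = (q : ℝ) ^ k * (4 * c₁ ^ 2) * Real.exp (2 * (k * Real.log C + c * k ^ 2)) *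
              (m : ℝ) ^ 2 * Real.exp (3 / 8 * δ * m) := by
            ring
        _ < Real.exp (δ * m) := hm1
        _ ≤ Real.exp (γ * m) := by
            rw [Real.exp_le_exp]
            exact mul_le_mul_of_nonneg_right hδγ (Nat.cast_nonneg _)

end Pool.Agent.H9.PM
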