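import Pool.Agent.H9.PM.Rec

/-!
Linear forms over an extension which do not vanish at the rational points.
-/

set_option autoImplicit false

namespace Pool.Agent.H9.PM

open Finset NumberField Filter Pool.Agent.TH143.HE

/-- an extension with an algebraic integer `θ` of house one and of large degree -/
theorem exists_ext (L : Type) [Field L] [NumberField L] (N : ℕ) :
    ∃ (L' : Type) (_ : Field L') (_ : NumberField L') (_ : Algebra L L') (θ : 𝓞 L'),
      hs θ ≤ 1 ∧ ∀ x : Fin (N + 1) → L,
        ∑ j, algebraMap L L' (x j) * (algebraMap (𝓞 L') L' θ) ^ (j : ℕ) = 0 → x = 0 := by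
  classical
  obtain ⟨r, hr, hrp⟩ := Nat.exists_infinite_primes ((N + 1) * Module.finrank ℚ L + 2)
  have hr0 : NeZero r := ⟨hrp.ne_zero⟩
  have hr0' : NeZero (r : L) := ⟨Nat.cast_ne_zero.2 hrp.ne_zero⟩
  let L' := CyclotomicField r L
  have hnf : NumberField L' := IsCyclotomicExtension.numberField {r} L L'
  have hζ : IsPrimitiveRoot (IsCyclotomicExtension.zeta r L L') r :=
    IsCyclotomicExtension.zeta_spec r L L'
  set ζ := IsCyclotomicExtension.zeta r L L' with hζdef
  refine ⟨L', inferInstance, hnf, inferInstance, hζ.toInteger, ?_, ?_⟩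
  · unfold hs
    have h1 : house ζ ≤ 1 := by
      rw [house_eq_sup']
      have : ∀ φ : L' →+* ℂ, ‖φ ζ‖₊ ≤ 1 := by
        intro φ
        have h2 : (φ ζ) ^ r = 1 := by rw [← map_pow, hζ.pow_eq_one, map_one]
        have h3 := Complex.norm_eq_one_of_pow_eq_one h2 hrp.ne_zero
        rw [← NNReal.coe_le_coe, coe_nnnorm, h3]
        simp
      have h4 : (univ.sup' univ_nonempty (fun φ : L' →+* ℂ ↦ ‖φ ζ‖₊)) ≤ 1 :=
        Finset.sup'_le _ _ fun φ _ => this φ
      exact_mod_cast h4
    exact h1
  · intro x hx
    by_contra hne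
    let p : Polynomial L := ∑ j : Fin (N + 1), Polynomial.C (x j) * Polynomial.X ^ (j : ℕ)
    have hp0 : p ≠ 0 := by
      intro h0
      apply hne
      funext j
      have h1 := congrArg (fun p => Polynomial.coeff p (j : ℕ)) h0
      simp only [p, Polynomial.finsetSum_coeff, Polynomial.coeff_C_mul_X_pow,
        Polynomial.coeff_zero] at h1
      rw [Finset.sum_eq_single j] at h1
      · rw [if_pos rfl] at h1
        exact h1
      · intro b _ hb
        rw [if_neg]
        intro h2
        exact hb (Fin.ext h2.symm)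
      · intro h2
        exact absurd (Finset.mem_univ _) h2
    have hroot : Polynomial.aeval ζ p = 0 := by
      simp only [p, map_sum, map_mul, Polynomial.aeval_C, map_pow, Polynomial.aeval_X]
      exact hx
    have hdeg : p.natDegree ≤ N := by
      refine Polynomial.natDegree_sum_le_of_forall_le _ _ fun j _ => ?_
      exact (Polynomial.natDegree_C_mul_X_pow_le _ _).trans (by have := j.2; omega)
    have h1 : (minpoly L ζ).natDegree ≤ N :=
      (Polynomial.natDegree_le_natDegree (minpoly.degree_le_of_ne_zero L ζ hp0 hroot)).trans hdeg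
    -- the degree is large
    have h2 : Module.finrank L L' = (minpoly L ζ).natDegree := by
      rw [(hζ.powerBasis L).finrank, ← (hζ.powerBasis L).natDegree_minpoly, IsPrimitiveRoot.powerBasis_gen L hζ]
    have h3 : Module.finrank ℚ L * Module.finrank L L' = Module.finrank ℚ L' :=
      Module.finrank_mul_finrank ℚ L L'
    have h4 : (minpoly ℚ ζ).natDegree ≤ Module.finrank ℚ L' := minpoly.natDegree_le ζ
    have h5 : (minpoly ℚ ζ).natDegree = r - 1 := by
      rw [← Polynomial.cyclotomic_eq_minpoly_rat hζ hrp.pos, Polynomial.natDegree_cyclotomic,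
        Nat.totient_prime hrp]
    have h6 : Module.finrank ℚ L * Module.finrank L L' ≤ Module.finrank ℚ L * N := by
      rw [h2]
      exact Nat.mul_le_mul_left _ h1
    have h7 : Module.finrank ℚ L * N ≤ (N + 1) * Module.finrank ℚ L := by
      rw [mul_comm]
      exact Nat.mul_le_mul_right _ (Nat.le_succ _)
    omega

end Pool.Agent.H9.PM
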