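import Pool.Agent.H9.PM.Exist
import Pool.Graph.R_seed8.TH143.HE.PCur

/-!
The quotients of the coordinates satisfy recurrences with polynomial coefficients.
-/

set_option autoImplicit false

namespace Pool.Agent.H9.PM

open Finset NumberField Filter Pool.Agent.TH143.HE

variable {L : Type} [Field L] [NumberField L]

/-- the polynomial coefficients of the recurrence -/
noncomputable def Qp (D : ℕ) (ξ : ℕ → ℕ → 𝓞 L) (i : ℕ) : Polynomial L :=
  ∑ κ ∈ range (D + 1), Polynomial.C (algebraMap (𝓞 L) L (ξ i κ) * primorial D * (κ.factorial : L)⁻¹) *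
    descPochhammer L κ

theorem Qp_eval (D : ℕ) (ξ : ℕ → ℕ → 𝓞 L) (i n : ℕ) :
    (Qp D ξ i).eval (n : L) = ∑ κ ∈ range (D + 1),
      algebraMap (𝓞 L) L ((primorial D * n.choose κ : ℕ) : 𝓞 L) * algebraMap (𝓞 L) L (ξ i κ) := by
  unfold Qp
  rw [Polynomial.eval_finsetSum]
  refine Finset.sum_congr rfl fun κ _ => ?_
  rw [Polynomial.eval_mul, Polynomial.eval_C, descPochhammer_eval_eq_descFactorial,
    Nat.descFactorial_eq_factorial_mul_choose]
  have h1 : (κ.factorial : L) ≠ 0 := Nat.cast_ne_zero.2 κ.factorial_ne_zero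
  rw [map_natCast]
  push_cast
  field_simp

theorem Qp_ne_zero {D : ℕ} {ξ : ℕ → ℕ → 𝓞 L} {i : ℕ} (h : ∃ κ < D + 1, ξ i κ ≠ 0) :
    Qp D ξ i ≠ 0 := by
  classical
  intro h0
  obtain ⟨hκ, hne⟩ := Nat.find_spec h
  have hmin := fun m (hm : m < Nat.find h) => Nat.find_min h hm
  set κ := Nat.find h with hκdef
  have h1 := Qp_eval D ξ i κ
  rw [h0, Polynomial.eval_zero, Finset.sum_eq_single κ] at h1
  · rw [Nat.choose_self, mul_one] at h1
    have h2 : ((primorial D : ℕ) : 𝓞 L) ≠ 0 := Nat.cast_ne_zero.2 (primorial_pos D).ne'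
    have h3 := (mul_eq_zero.1 h1.symm)
    rcases h3 with h3 | h3
    · exact h2 ((map_eq_zero_iff _ (RingOfIntegers.coe_injective)).1 h3)
    · exact hne ((map_eq_zero_iff _ (RingOfIntegers.coe_injective)).1 h3)
  · intro b hb hbne
    rcases Nat.lt_or_ge b κ with hlt | hge
    · have h2 := hmin b hlt
      push Not at h2
      rw [h2 (Finset.mem_range.1 hb)]
      simp
    · rw [Nat.choose_eq_zero_of_lt (by omega)]
      simp
  · intro h2
    exact absurd (Finset.mem_range.2 hκ) h2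

theorem prec_div {k D : ℕ} {ξ : ℕ → ℕ → 𝓞 L} {u v : ℕ → 𝓞 L}
    (h1 : ∃ i < k, ∃ κ < D + 1, ξ i κ ≠ 0) (h2 : ∀ n, GG k D ξ u v n = 0) (hv : ∀ n, v n ≠ 0) :
    PRec fun n => algebraMap (𝓞 L) L (u n) / algebraMap (𝓞 L) L (v n) := by
  classical
  obtain ⟨i, hi, hκ⟩ := h1
  refine ⟨k - 1, Qp D ξ, ⟨i, by omega, Qp_ne_zero hκ⟩, fun m => ?_⟩
  have hk : k - 1 + 1 = k := by omega
  rw [hk]
  have hv' : ∀ n, algebraMap (𝓞 L) L (v n) ≠ 0 := fun n h =>
    hv n ((map_eq_zero_iff _ (RingOfIntegers.coe_injective)).1 h)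
  have h3 : algebraMap (𝓞 L) L (GG k D ξ u v m) = 0 := by
    rw [h2 m, map_zero]
  have h4 : algebraMap (𝓞 L) L (GG k D ξ u v m) =
      (∏ l ∈ range k, algebraMap (𝓞 L) L (v (m + l))) *
      ∑ i ∈ range k, (Qp D ξ i).eval (m : L) *
        (algebraMap (𝓞 L) L (u (m + i)) / algebraMap (𝓞 L) L (v (m + i))) := by
    unfold GG
    rw [Finset.mul_sum, map_sum]
    refine Finset.sum_congr rfl fun i hi => ?_
    rw [map_sum, Qp_eval, ← Finset.mul_prod_erase _ _ hi, Finset.sum_mul, Finset.mul_sum]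
    refine Finset.sum_congr rfl fun κ _ => ?_
    unfold ww
    rw [map_mul, map_mul, map_mul, map_prod]
    have := hv' (m + i)
    field_simp
  rw [h4] at h3
  exact (mul_eq_zero.1 h3).resolve_left (Finset.prod_ne_zero_iff.2 fun l _ => hv' _)

end Pool.Agent.H9.PM
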