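import Pool.Agent.H9.PM.Const

/-!
Sequences of points on a rational curve, over a number field, with the congruences
`x m = x n` modulo `m - n` and with polynomial growth.
-/

set_option autoImplicit false

namespace Pool.Agent.H9.PM

open Finset NumberField Filter MvPolynomial Pool.Agent.TH143.HE

/-- the points with integral coordinates `a n` satisfy all congruences which a map given by
polynomials satisfies -/
structure ModAll {L : Type} [Field L] {N : ℕ} (q : ℕ) (a : ℕ → Fin (N + 1) → 𝓞 L) : Prop where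
  content : ∀ n, (q : 𝓞 L) ∈ Ideal.span (Set.range (a n))
  cong : ∀ (m n : ℕ) i j, (m : 𝓞 L) - n ∣ a m i * a n j - a m j * a n i

theorem ModAll.primes {L : Type} [Field L] {N : ℕ} {q : ℕ} {a : ℕ → Fin (N + 1) → 𝓞 L}
    (h : ModAll q a) (P : Set ℕ) : ModPrimes P q a := by
  refine ⟨h.content, fun p _ n i j => ?_⟩
  have h1 := h.cong (n + p) n i j
  have h2 : ((n + p : ℕ) : 𝓞 L) - (n : ℕ) = p := by push_cast; ring
  rwa [h2] at h1

section

variable {R : Type} [CommRing R] {N : ℕ}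

/-- coprime homogeneous coordinates of a rational curve -/
theorem exists_coprime {L : Type} [Field L] [Infinite L] (φ : R →+* L)
    {I I' : Ideal (MvPolynomial (Fin (N + 1)) R)} {p : Fin (N + 1) → Polynomial L}
    (h : RCur φ I I' p) : ∃ r s : Fin (N + 1) → Polynomial L, RCur φ I I' r ∧
      ∑ j, s j * r j = 1 := by
  classical
  obtain ⟨h1, ⟨G', hG', ⟨d', hGh⟩, hne⟩, hnc⟩ := h
  obtain ⟨g, hg⟩ := (IsPrincipalIdealRing.principal (Ideal.span (Set.range p))).principal
  have hgm : ∀ j, ∃ r, p j = g * r := by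
    intro j
    have h2 : p j ∈ Ideal.span (Set.range p) := Ideal.subset_span ⟨j, rfl⟩
    rw [hg] at h2
    exact Ideal.mem_span_singleton.1 h2
  choose r hr using hgm
  have hg0 : g ≠ 0 := by
    intro h0
    obtain ⟨j, k, i, i', h3⟩ := hnc
    apply h3
    rw [hr j, hr k, h0]
    simp
  have hgs : g ∈ Ideal.span (Set.range p) := by
    rw [hg]
    exact Ideal.mem_span_singleton_self g
  obtain ⟨s, hs⟩ := (Ideal.mem_span_range_iff_exists_fun).1 hgs
  have hp : p = fun j => g * r j := funext hr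
  refine ⟨r, s, ⟨fun G hG hGf => ?_, ⟨G', hG', ⟨d', hGh⟩, ?_⟩, ?_⟩, ?_⟩
  · obtain ⟨d, hd⟩ := hGf
    have h2 := h1 G hG ⟨d, hd⟩
    rw [hp, eval₂_smul_homog _ g r hd] at h2
    exact (mul_eq_zero.1 h2).resolve_left (pow_ne_zero _ hg0)
  · rw [hp, eval₂_smul_homog _ g r hGh] at hne
    exact right_ne_zero_of_mul hne
  · rw [nc_iff] at hnc ⊢
    obtain ⟨j, k, u, v, h3⟩ := hnc
    refine ⟨j, k, u, v, fun h4 => h3 ?_⟩
    rw [hr j, hr k, Polynomial.eval_mul, Polynomial.eval_mul, Polynomial.eval_mul,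
      Polynomial.eval_mul]
    linear_combination (g.eval u * g.eval v) * h4
  · apply mul_left_cancel₀ hg0
    rw [mul_one, Finset.mul_sum]
    conv_rhs => rw [← hs]
    refine Finset.sum_congr rfl fun j _ => ?_
    rw [hr j]
    ring

/-- common denominators -/
theorem exists_int_poly {L : Type} [Field L] [NumberField L] {ι : Type} [Fintype ι]
    (f : ι → Polynomial L) : ∃ (b : 𝓞 L) (F : ι → Polynomial (𝓞 L)), b ≠ 0 ∧
      ∀ i, (F i).map (algebraMap (𝓞 L) L) = Polynomial.C (algebraMap (𝓞 L) L b) * f i := by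
  classical
  choose b hb hb2 using fun i =>
    IsLocalization.integerNormalization_spec (nonZeroDivisors (𝓞 L)) (f i)
  refine ⟨∏ i, b i, fun i => Polynomial.C (∏ j ∈ univ.erase i, b j) *
    IsLocalization.integerNormalization (nonZeroDivisors (𝓞 L)) (f i),
    Finset.prod_ne_zero_iff.2 fun i _ => nonZeroDivisors.ne_zero (hb i), fun i => ?_⟩
  rw [Polynomial.map_mul, hb2, Polynomial.map_C, ← Finset.prod_erase_mul univ b (mem_univ i),
    map_mul, Polynomial.C_mul, mul_assoc]
  congr 1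
  rw [← Polynomial.smul_eq_C_mul, algebraMap_smul]

theorem hs_eval_le {L : Type} [Field L] [NumberField L] (F : Polynomial (𝓞 L)) (s : ℕ) :
    ∃ C : ℝ, 0 ≤ C ∧ ∀ n : ℕ, hs (F.eval ((n + s : ℕ) : 𝓞 L)) ≤ C * ((n : ℝ) + 1) ^ F.natDegree := by
  refine ⟨∑ i ∈ range (F.natDegree + 1), hs (F.coeff i) * ((s : ℝ) + 1) ^ F.natDegree,
    Finset.sum_nonneg fun i _ => mul_nonneg (hs_nonneg _) (by positivity), fun n => ?_⟩
  rw [Polynomial.eval_eq_sum_range]
  refine (hs_sum_le _ _).trans ?_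
  rw [Finset.sum_mul]
  refine Finset.sum_le_sum fun i hi => ?_
  refine (hs_mul_le _ _).trans ?_
  rw [mul_assoc]
  refine mul_le_mul_of_nonneg_left ?_ (hs_nonneg _)
  rw [← Nat.cast_pow, hs_natCast, ← mul_pow, Nat.cast_pow]
  have h1 : ((n + s : ℕ) : ℝ) ≤ ((s : ℝ) + 1) * (n + 1) := by
    push_cast
    have : (0 : ℝ) ≤ s := Nat.cast_nonneg s
    have : (0 : ℝ) ≤ n := Nat.cast_nonneg n
    nlinarith
  have h2 : (1 : ℝ) ≤ ((s : ℝ) + 1) * (n + 1) := by
    have : (0 : ℝ) ≤ s := Nat.cast_nonneg s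
    have : (0 : ℝ) ≤ n := Nat.cast_nonneg n
    nlinarith
  refine (pow_le_pow_left₀ (Nat.cast_nonneg _) h1 i).trans
    (pow_le_pow_right₀ h2 (Nat.lt_succ_iff.1 (mem_range.1 hi)))

/-- **The sequence** of points on a rational curve. -/
theorem exists_seq_cong {L : Type} [Field L] [NumberField L] (φ : R →+* L)
    {I I' : Ideal (MvPolynomial (Fin (N + 1)) R)} {p : Fin (N + 1) → Polynomial L}
    (h : RCur φ I I' p) :
    ∃ (q A : ℕ) (C : ℝ) (a : ℕ → Fin (N + 1) → 𝓞 L), q ≠ 0 ∧ ModAll q a ∧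
      (∀ n j, hs (a n j) ≤ C * ((n : ℝ) + 1) ^ A) ∧
      (∀ n, IsPtP φ I (fun j => algebraMap (𝓞 L) L (a n j))) ∧
      (∀ n, ¬ IsPtP φ I' (fun j => algebraMap (𝓞 L) L (a n j))) ∧
      ¬ ∀ m n i j, a m i * a n j = a m j * a n i := by
  classical
  obtain ⟨r, s, hr, hsr⟩ := exists_coprime φ h
  obtain ⟨b, F, hb, hF⟩ := exists_int_poly r
  obtain ⟨b', S, hb', hS⟩ := exists_int_poly s
  obtain ⟨h1, ⟨G', hG', ⟨d', hGh⟩, hne⟩, hnc⟩ := hr
  have hbL : algebraMap (𝓞 L) L b ≠ 0 := by
    rwa [Ne, map_eq_zero_iff _ RingOfIntegers.coe_injective]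
  have hinj : ∀ s : ℕ, Function.Injective fun m : ℕ => ((m + s : ℕ) : L) := by
    intro s a b hab
    have := Nat.cast_injective hab
    omega
  obtain ⟨t, ht⟩ : ∃ t : ℕ, ∀ m, t ≤ m →
      (eval₂ (Polynomial.C.comp φ) r G').eval (m : L) ≠ 0 := by
    have h2 : {m : ℕ | (eval₂ (Polynomial.C.comp φ) r G').eval (m : L) = 0}.Finite := by
      have h2 : {z : L | (eval₂ (Polynomial.C.comp φ) r G').IsRoot z}.Finite :=
        Polynomial.finite_setOfPred_isRoot hne
      exact h2.preimage Nat.cast_injective.injOn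
    have h3 := h2.compl_mem_cofinite
    rw [Nat.cofinite_eq_atTop] at h3
    exact eventually_atTop.1 h3
  set a : ℕ → Fin (N + 1) → 𝓞 L := fun n j => (F j).eval ((n + t : ℕ) : 𝓞 L) with ha
  have haL : ∀ n j, algebraMap (𝓞 L) L (a n j) =
      algebraMap (𝓞 L) L b * (r j).eval ((n + t : ℕ) : L) := by
    intro n j
    have h2 := congrArg (Polynomial.eval ((n + t : ℕ) : L)) (hF j)
    rw [Polynomial.eval_mul, Polynomial.eval_C] at h2
    rw [← h2, ha]
    simp only
    rw [Polynomial.eval_map, Polynomial.eval₂_at_natCast]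
  choose C hC0 hC using fun j => hs_eval_le (F j) t
  set A := univ.sup fun j => (F j).natDegree with hA
  -- Bezout
  have hbez : ∑ j, S j * F j = Polynomial.C (b' * b) := by
    apply Polynomial.map_injective (algebraMap (𝓞 L) L) RingOfIntegers.coe_injective
    rw [Polynomial.map_sum, Polynomial.map_C]
    have h2 : ∀ j, Polynomial.map (algebraMap (𝓞 L) L) (S j * F j) =
        Polynomial.C (algebraMap (𝓞 L) L (b' * b)) * (s j * r j) := by
      intro j
      rw [Polynomial.map_mul, hS, hF, map_mul, Polynomial.C_mul]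
      ring
    simp only [h2]
    rw [← Finset.mul_sum, hsr, mul_one]
  set q : ℕ := Ideal.absNorm (Ideal.span {b' * b}) with hq
  have hq0 : q ≠ 0 := by
    rw [hq, Ne, Ideal.absNorm_eq_zero_iff, Ideal.span_singleton_eq_bot]
    exact mul_ne_zero hb' hb
  refine ⟨q, A, ∑ j, C j, a, hq0, ⟨fun n => ?_, fun m n i j => ?_⟩, fun n j => ?_, fun n G hG hGf => ?_,
    fun n hcon => ?_, fun hcon => ?_⟩
  · have h2 : (q : 𝓞 L) ∈ Ideal.span {b' * b} := Ideal.absNorm_mem _
    refine (Ideal.span_singleton_le_iff_mem _).2 ?_ h2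
    have h3 := congrArg (Polynomial.eval ((n + t : ℕ) : 𝓞 L)) hbez
    rw [Polynomial.eval_C, Polynomial.eval_finsetSum] at h3
    rw [← h3]
    refine Ideal.sum_mem _ fun j _ => ?_
    rw [Polynomial.eval_mul]
    exact Ideal.mul_mem_left _ _ (Ideal.subset_span ⟨j, rfl⟩)
  · have h2 : ∀ j, (m : 𝓞 L) - n ∣ a m j - a n j := by
      intro j
      have h3 := Polynomial.sub_dvd_eval_sub ((m + t : ℕ) : 𝓞 L) ((n + t : ℕ) : 𝓞 L) (F j)
      have h4 : ((m + t : ℕ) : 𝓞 L) - (n + t : ℕ) = m - n := by push_cast; ring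
      rwa [h4] at h3
    have h3 : a m i * a n j - a m j * a n i = (a m i - a n i) * a n j - (a m j - a n j) * a n i := by
      ring
    rw [h3]
    exact dvd_sub ((h2 i).mul_right _) ((h2 j).mul_right _)
  · refine (hC j n).trans ?_
    refine mul_le_mul (Finset.single_le_sum (fun j _ => hC0 j) (mem_univ j)) ?_ (by positivity)
      (Finset.sum_nonneg fun j _ => hC0 j)
    exact pow_le_pow_right₀ (by linarith [Nat.cast_nonneg (α := ℝ) n])
      (Finset.le_sup (f := fun j => (F j).natDegree) (mem_univ j))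
  · obtain ⟨d, hd⟩ := hGf
    simp only [haL]
    rw [eval₂_smul_homog _ _ _ hd, ← eval₂_eval, h1 G hG ⟨d, hd⟩, Polynomial.eval_zero, mul_zero]
  · have h2 := hcon G' hG' ⟨d', hGh⟩
    simp only [haL] at h2
    rw [eval₂_smul_homog _ _ _ hGh, ← eval₂_eval] at h2
    exact (mul_ne_zero (pow_ne_zero _ hbL) (ht _ (Nat.le_add_left _ _))) h2
  · rw [nc_iff] at hnc
    obtain ⟨j, k, u, v, h3⟩ := hnc
    apply h3
    have h4 : ∀ m n : ℕ, (r j).eval ((m + t : ℕ) : L) * (r k).eval ((n + t : ℕ) : L) =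
        (r k).eval ((m + t : ℕ) : L) * (r j).eval ((n + t : ℕ) : L) := by
      intro m n
      have h5 := congrArg (algebraMap (𝓞 L) L) (hcon m n j k)
      rw [map_mul, map_mul, haL, haL, haL, haL] at h5
      apply mul_left_cancel₀ (mul_ne_zero hbL hbL)
      linear_combination h5
    have hinf : (Set.range fun m : ℕ => ((m + t : ℕ) : L)).Infinite :=
      Set.infinite_range_of_injective (hinj t)
    have h5 : ∀ n : ℕ, r j * Polynomial.C ((r k).eval ((n + t : ℕ) : L)) =
        r k * Polynomial.C ((r j).eval ((n + t : ℕ) : L)) := by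
      intro n
      refine Polynomial.eq_of_infinite_eval_eq _ _ (hinf.mono ?_)
      rintro _ ⟨m, rfl⟩
      simp only [Set.mem_ofPred_eq, Polynomial.eval_mul, Polynomial.eval_C]
      exact h4 m n
    have h6 : Polynomial.C ((r j).eval u) * r k = Polynomial.C ((r k).eval u) * r j := by
      refine Polynomial.eq_of_infinite_eval_eq _ _ (hinf.mono ?_)
      rintro _ ⟨n, rfl⟩
      simp only [Set.mem_ofPred_eq, Polynomial.eval_mul, Polynomial.eval_C]
      have h7 := congrArg (Polynomial.eval u) (h5 n)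
      simpa only [Polynomial.eval_mul, Polynomial.eval_C] using h7
    have h7 := congrArg (Polynomial.eval v) h6
    simpa only [Polynomial.eval_mul, Polynomial.eval_C] using h7

end

end Pool.Agent.H9.PM
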