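import Pool.Agent.H9.PM.Ext

/-!
Sequences of points of projective varieties with the period `p` modulo `p`: they are eventually
periodic if there are no rational curves.
-/

set_option autoImplicit false

namespace Pool.Agent.H9.PM

open Finset NumberField Filter MvPolynomial Pool.Agent.TH143.HE

/-- The integral homogeneous coordinates `a n` have a common divisor which divides `q`, and for the
primes `p` in `P` the points with the coordinates `a n` and `a (n + p)` are the same modulo `p`. -/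
structure ModPrimes {L : Type} [Field L] {N : ℕ} (P : Set ℕ) (q : ℕ)
    (a : ℕ → Fin (N + 1) → 𝓞 L) : Prop where
  content : ∀ n, (q : 𝓞 L) ∈ Ideal.span (Set.range (a n))
  periodic : ∀ p ∈ P, ∀ n i j, (p : 𝓞 L) ∣ a (n + p) i * a n j - a (n + p) j * a n i

section basic

variable {L : Type} [Field L] {N : ℕ}

theorem ModPrimes.map {L' : Type} [Field L'] [Algebra L L'] {P : Set ℕ} {q : ℕ}
    {a : ℕ → Fin (N + 1) → 𝓞 L} (h : ModPrimes P q a) :
    ModPrimes P q (fun n j => algebraMap (𝓞 L) (𝓞 L') (a n j)) := by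
  refine ⟨fun n => ?_, fun p hp n i j => ?_⟩
  · have h1 := Ideal.mem_map_of_mem (algebraMap (𝓞 L) (𝓞 L')) (h.content n)
    rw [Ideal.map_span, map_natCast, ← Set.range_comp] at h1
    exact h1
  · have h1 := map_dvd (algebraMap (𝓞 L) (𝓞 L')) (h.periodic p hp n i j)
    rw [map_natCast, map_sub, map_mul, map_mul] at h1
    exact h1

theorem ModPrimes.ne_zero {P : Set ℕ} {q : ℕ} (hq : (q : 𝓞 L) ≠ 0)
    {a : ℕ → Fin (N + 1) → 𝓞 L} (h : ModPrimes P q a) (n : ℕ) : a n ≠ 0 := by
  intro h0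
  have h1 := h.content n
  rw [h0] at h1
  have h2 : Ideal.span (Set.range (0 : Fin (N + 1) → 𝓞 L)) = ⊥ := by
    rw [Ideal.span_eq_bot]
    rintro _ ⟨j, rfl⟩
    rfl
  rw [h2, Ideal.mem_bot] at h1
  exact hq h1

theorem ModPrimes.cong {P : Set ℕ} {q : ℕ} {a : ℕ → Fin (N + 1) → 𝓞 L} (h : ModPrimes P q a)
    (α β : Fin (N + 1) → 𝓞 L) :
    Cong P q (fun n => ∑ j, α j * a n j) (fun n => ∑ j, β j * a n j) := by
  classical
  intro p hp n
  obtain ⟨r, hr⟩ := (Ideal.mem_span_range_iff_exists_fun).1 (h.content n)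
  have key : ∀ i, (p : 𝓞 L) ∣ q * a (n + p) i - (∑ j, r j * a (n + p) j) * a n i := by
    intro i
    have h1 : q * a (n + p) i - (∑ j, r j * a (n + p) j) * a n i =
        ∑ j, r j * (a (n + p) i * a n j - a (n + p) j * a n i) := by
      rw [← hr, Finset.sum_mul, Finset.sum_mul, ← Finset.sum_sub_distrib]
      refine Finset.sum_congr rfl fun j _ => ?_
      ring
    rw [h1]
    exact Finset.dvd_sum fun j _ => Dvd.dvd.mul_left (h.periodic p hp n i j) _
  have key2 : ∀ α : Fin (N + 1) → 𝓞 L, (p : 𝓞 L) ∣ q * (∑ i, α i * a (n + p) i) -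
      (∑ j, r j * a (n + p) j) * ∑ i, α i * a n i := by
    intro α
    have h1 : q * (∑ i, α i * a (n + p) i) - (∑ j, r j * a (n + p) j) * ∑ i, α i * a n i =
        ∑ i, α i * (q * a (n + p) i - (∑ j, r j * a (n + p) j) * a n i) := by
      rw [Finset.mul_sum, Finset.mul_sum, ← Finset.sum_sub_distrib]
      refine Finset.sum_congr rfl fun j _ => ?_
      ring
    rw [h1]
    exact Finset.dvd_sum fun i _ => Dvd.dvd.mul_left (key i) _
  exact ⟨_, key2 α, key2 β⟩

end basic

section growth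

variable {L : Type} [Field L] [NumberField L] {N : ℕ}

theorem hs_map_le {L' : Type} [Field L'] [NumberField L'] [Algebra L L'] (x : 𝓞 L) :
    hs (algebraMap (𝓞 L) (𝓞 L') x) ≤ hs x := by
  unfold hs
  have h1 : algebraMap (𝓞 L') L' (algebraMap (𝓞 L) (𝓞 L') x) =
      algebraMap L L' (algebraMap (𝓞 L) L x) := by
    rw [← IsScalarTower.algebraMap_apply, ← IsScalarTower.algebraMap_apply]
  rw [h1, house_eq_sup']
  obtain ⟨φ, -, hφ⟩ := Finset.exists_mem_eq_sup' univ_nonempty
    (fun φ : L' →+* ℂ ↦ ‖φ (algebraMap L L' (algebraMap (𝓞 L) L x))‖₊)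
  rw [hφ, coe_nnnorm]
  exact norm_embedding_le_house (algebraMap (𝓞 L) L x) (φ.comp (algebraMap L L'))

theorem growth_lin {C c : ℝ} {a : ℕ → Fin (N + 1) → 𝓞 L}
    (h : ∀ n j, hs (a n j) ≤ C * Real.exp (c * n)) (α : Fin (N + 1) → 𝓞 L) (n : ℕ) :
    hs (∑ j, α j * a n j) ≤ ((∑ j, hs (α j)) * C) * Real.exp (c * n) := by
  refine (hs_sum_le _ _).trans ?_
  rw [Finset.sum_mul, Finset.sum_mul]
  refine Finset.sum_le_sum fun j _ => ?_
  refine (hs_mul_le _ _).trans ?_
  rw [mul_assoc]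
  exact mul_le_mul_of_nonneg_left (h n j) (hs_nonneg _)

end growth

theorem exists_emb {L L' : Type} [Field L] [Field L'] [Algebra L L'] [Algebra.IsAlgebraic L L']
    (τ : L →+* ℂ) : ∃ τ' : L' →+* ℂ, τ'.comp (algebraMap L L') = τ := by
  let _ : Algebra L ℂ := τ.toAlgebra
  let e : L' →ₐ[L] ℂ := IsAlgClosed.lift
  refine ⟨e, ?_⟩
  ext r
  exact e.commutes _

theorem isPtP_smul' {R A : Type} [CommRing R] [CommRing A] {N : ℕ} (φ : R →+* A)
    {I : Ideal (MvPolynomial (Fin (N + 1)) R)} {x : Fin (N + 1) → A} (h : IsPtP φ I x) (a : A) :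
    IsPtP φ I (fun j => a * x j) := by
  rintro G hG ⟨d, hd⟩
  rw [eval₂_smul_homog _ a x hd, h G hG ⟨d, hd⟩, mul_zero]

theorem isPtP_map {K L : Type} [Field K] [Field L] [Algebra K L] {N : ℕ} {σ : K →+* ℂ}
    {τ : L →+* ℂ} (hτ : τ.comp (algebraMap K L) = σ) (I : Ideal (MvPolynomial (Fin (N + 1)) K))
    (x : Fin (N + 1) → L) :
    IsPtP σ I (fun j => τ (x j)) ↔ IsPtP (algebraMap K L) I x := by
  have h1 : ∀ G : MvPolynomial (Fin (N + 1)) K, eval₂ σ (fun j => τ (x j)) G =
      τ (eval₂ (algebraMap K L) x G) := by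
    intro G
    rw [← hτ]
    exact (eval₂_comp_left τ (algebraMap K L) x G).symm
  unfold IsPtP
  simp only [h1, map_eq_zero]

/-- the sequences are eventually periodic -/
theorem eventually_periodic (γ : ℝ) (hγ : 0 < γ) : ∃ c : ℝ, 0 < c ∧
    ∀ (K : Type) [Field K] [NumberField K] (σ : K →+* ℂ) (N : ℕ)
      (I I' : Ideal (MvPolynomial (Fin (N + 1)) K)), RatCurvesIn σ I I' →
    ∀ (L : Type) [Field L] [NumberField L] [Algebra K L] (P : Set ℕ) (q : ℕ) (C : ℝ)
      (a : ℕ → Fin (N + 1) → 𝓞 L), (∀ p ∈ P, p.Prime) → Dense γ P → q ≠ 0 → ModPrimes P q a →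
      (∀ n j, hs (a n j) ≤ C * Real.exp (c * n)) →
      (∀ n, IsPtP (algebraMap K L) I (fun j => algebraMap (𝓞 L) L (a n j))) →
      (∀ n, ¬ IsPtP (algebraMap K L) I' (fun j => algebraMap (𝓞 L) L (a n j))) →
      ∃ k m0 : ℕ, 0 < k ∧ ∀ m, m0 ≤ m → ∀ i j, a (m + k) i * a m j = a (m + k) j * a m i := by
  classical
  obtain ⟨c, k, hc, hk, hcore⟩ := exists_aux γ hγ
  refine ⟨c, hc, fun K _ _ σ N I I' hrat L _ _ _ P q C a hP hd hq hmod hgr hX hZ => ?_⟩
  obtain ⟨L', _, _, _, θ, hθ, hθ2⟩ := exists_ext L N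
  set b : ℕ → Fin (N + 1) → 𝓞 L' := fun n j => algebraMap (𝓞 L) (𝓞 L') (a n j) with hb
  have hmodb : ModPrimes P q b := hmod.map
  have hgrb : ∀ n j, hs (b n j) ≤ C * Real.exp (c * n) := fun n j => (hs_map_le _).trans (hgr n j)
  have hbL : ∀ n j, algebraMap (𝓞 L') L' (b n j) = algebraMap L L' (algebraMap (𝓞 L) L (a n j)) := by
    intro n j
    rw [hb, ← IsScalarTower.algebraMap_apply, ← IsScalarTower.algebraMap_apply]
  set v : ℕ → 𝓞 L' := fun n => ∑ j : Fin (N + 1), θ ^ (j : ℕ) * b n j with hv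
  have hqL : (q : 𝓞 L) ≠ 0 := Nat.cast_ne_zero.2 hq
  have hane := hmod.ne_zero hqL
  have hinj : Function.Injective (algebraMap (𝓞 L) L) := RingOfIntegers.coe_injective
  have hinj' : Function.Injective (algebraMap (𝓞 L') L') := RingOfIntegers.coe_injective
  have hvne : ∀ n, v n ≠ 0 := by
    intro n h0
    have h1 := hθ2 (fun j => algebraMap (𝓞 L) L (a n j)) (by
      have h2 := congrArg (algebraMap (𝓞 L') L') h0
      rw [hv, map_zero, map_sum] at h2
      rw [← h2]
      refine Finset.sum_congr rfl fun j _ => ?_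
      rw [map_mul, map_pow, hbL]
      ring)
    apply hane n
    funext j
    have h3 := congrFun h1 j
    exact hinj (by rw [h3]; simp)
  have hrec : ∀ i, PRec fun n => algebraMap (𝓞 L') L' (b n i) / algebraMap (𝓞 L') L' (v n) := by
    intro i
    set α : Fin (N + 1) → 𝓞 L' := fun j => if j = i then 1 else 0 with hα
    set β : Fin (N + 1) → 𝓞 L' := fun j => θ ^ (j : ℕ) with hβ
    set C' : ℝ := max ((∑ j, hs (α j)) * C) ((∑ j, hs (β j)) * C) with hC'
    obtain ⟨D, ξ, h1, h2⟩ := hcore L' P q C' (fun n => ∑ j, α j * b n j) (fun n => ∑ j, β j * b n j)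
      hP hd hq (hmodb.cong α β)
      (fun n => (growth_lin hgrb α n).trans
        (mul_le_mul_of_nonneg_right (le_max_left _ _) (Real.exp_pos _).le))
      (fun n => (growth_lin hgrb β n).trans
        (mul_le_mul_of_nonneg_right (le_max_right _ _) (Real.exp_pos _).le))
    have h3 := prec_div h1 h2 hvne
    have h4 : ∀ n, ∑ j, α j * b n j = b n i := by
      intro n
      simp [hα]
    simpa only [h4] using h3
  -- embeddings
  have halg : Algebra.IsAlgebraic K L := Algebra.IsAlgebraic.tower_top (K := ℚ) K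
  have halg' : Algebra.IsAlgebraic L L' := Algebra.IsAlgebraic.tower_top (K := ℚ) L
  obtain ⟨τ, hτ⟩ := exists_emb (L' := L) σ
  obtain ⟨τ', hτ'⟩ := exists_emb (L' := L') τ
  have hττ : ∀ n j, τ' (algebraMap (𝓞 L') L' (b n j)) = τ (algebraMap (𝓞 L) L (a n j)) := by
    intro n j
    rw [hbL, ← hτ']
    rfl
  set w : ℕ → ℂ := fun n => (τ' (algebraMap (𝓞 L') L' (v n)))⁻¹ with hw
  have hw0 : ∀ n, w n ≠ 0 := by
    intro n
    rw [hw]
    refine inv_ne_zero fun h0 => ?_
    exact hvne n ((map_eq_zero_iff _ hinj').1 ((map_eq_zero_iff _ τ'.injective).1 h0))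
  set x : ℕ → Fin (N + 1) → ℂ := fun n j => w n * τ (algebraMap (𝓞 L) L (a n j)) with hx
  have hxrec : ∀ j, PRec fun m => x m j := by
    intro j
    have h1 := (hrec j).map τ'
    have h2 : (fun m => τ' (algebraMap (𝓞 L') L' (b m j) / algebraMap (𝓞 L') L' (v m))) =
        fun m => x m j := by
      funext m
      rw [map_div₀, hττ, hx, hw]
      simp only
      rw [div_eq_mul_inv, mul_comm]
    rw [h2] at h1
    exact h1
  have hpt : ∀ (J : Ideal (MvPolynomial (Fin (N + 1)) K)) n,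
      IsPtP σ J (x n) ↔ IsPtP (algebraMap K L) J (fun j => algebraMap (𝓞 L) L (a n j)) := by
    intro J n
    rw [← isPtP_map hτ]
    constructor
    · intro h
      have h1 := isPtP_smul' σ h (w n)⁻¹
      have h2 : (fun j => (w n)⁻¹ * x n j) = fun j => τ (algebraMap (𝓞 L) L (a n j)) := by
        funext j
        rw [hx]
        simp only
        rw [← mul_assoc, inv_mul_cancel₀ (hw0 n), one_mul]
      rwa [h2] at h1
    · intro h
      exact isPtP_smul' σ h (w n)
  obtain ⟨k', m0, hk', hper⟩ := proj_periodic hrat (x := x) (fun m h0 => by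
      apply hane m
      funext j
      have h1 := congrFun h0 j
      rw [hx] at h1
      simp only [Pi.zero_apply] at h1
      have h2 := (mul_eq_zero.1 h1).resolve_left (hw0 m)
      exact (map_eq_zero_iff _ hinj).1 ((map_eq_zero_iff _ τ.injective).1 h2)) hxrec
    (fun m => (hpt I m).2 (hX m)) (fun m hcon => hZ m ((hpt I' m).1 hcon))
  refine ⟨k', m0, hk', fun m hm i j => ?_⟩
  have h1 := hper m hm i j
  rw [hx] at h1
  simp only at h1
  have h2 : τ (algebraMap (𝓞 L) L (a (m + k') i * a m j)) =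
      τ (algebraMap (𝓞 L) L (a (m + k') j * a m i)) := by
    rw [map_mul, map_mul, map_mul, map_mul]
    have h3 := hw0 (m + k')
    have h4 := hw0 m
    apply mul_left_cancel₀ (mul_ne_zero h3 h4)
    linear_combination h1
  exact hinj (τ.injective h2)

end Pool.Agent.H9.PM
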